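import Pool.Agent.N798.S.Fi

/-!
# Hypothesis H for almost all multiples of given polynomials, and for almost all real polynomials

Let `P_0, …, P_{k-1}` be real polynomials of positive degrees `d_i` with positive leading coefficients,
for instance `x^2 + 1` and `x^2 + 3`.  For almost every `(α_0, …, α_{k-1})` in `(0, ∞)^k` the integers
`⌊α_0 P_0(m)⌋ + b_0, …, ⌊α_{k-1} P_{k-1}(m)⌋ + b_{k-1}` are simultaneously prime for
`~ N / ∏ (d_i log N)` integers `m ≤ N`, for all choices of the integer shifts `b_i`; and the number of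
such `m` is equal to the expected number `∑_{m ≤ N} ∏ 1 / log (α_i P_i(m))` up to an error which is
`o(N / (log N)^K)` for every `K`.  Consequently the same is true for almost every choice of all the
real coefficients of `k` polynomials of given degrees.
-/

namespace Pool.Agent.Results.MP_2dba45_nt.MetricHypothesisH

open Finset MeasureTheory Filter Topology Polynomial

/-- the number of `1 ≤ m ≤ N` for which all the integers `⌊α_i P_i(m)⌋ + b_i` are primes -/
noncomputable def polyCount {k : ℕ} (P : Fin k → ℝ[X]) (b : Fin k → ℤ) (α : Fin k → ℝ) (N : ℕ) : ℕ :=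
  #((Icc 1 N).filter fun m : ℕ => ∀ i, (⌊α i * (P i).eval (m : ℝ)⌋ + b i).toNat.Prime)

/-- the expected number -/
noncomputable def polyMain {k : ℕ} (P : Fin k → ℝ[X]) (α : Fin k → ℝ) (N : ℕ) : ℝ :=
  ∑ m ∈ Icc 1 N, ∏ i, 1 / Real.log (α i * (P i).eval (m : ℝ))

/-- the value at `x` of the polynomial with the coefficients `a_0, …, a_D` -/
noncomputable def val {D : ℕ} (a : Fin (D + 1) → ℝ) (x : ℝ) : ℝ := ∑ j, a j * x ^ (j : ℕ)

/-- the number of `1 ≤ m ≤ N` for which all the integers `⌊f_i(m)⌋ + b_i` are primes, where `f_i` is the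
polynomial of degree `d_i` with the coefficients `a_i` -/
noncomputable def coeffCount {k : ℕ} (d : Fin k → ℕ) (a : (i : Fin k) → Fin (d i + 1) → ℝ) (b : Fin k → ℤ)
    (N : ℕ) : ℕ :=
  #((Icc 1 N).filter fun m : ℕ => ∀ i, (⌊val (a i) m⌋ + b i).toNat.Prime)

/-- the expected number -/
noncomputable def coeffMain {k : ℕ} (d : Fin k → ℕ) (a : (i : Fin k) → Fin (d i + 1) → ℝ) (N : ℕ) : ℝ :=
  ∑ m ∈ Icc 1 N, ∏ i, 1 / Real.log (val (a i) m)

/-- the number of `1 ≤ m ≤ N` for which both `⌊α (m² + 1)⌋ + b` and `⌊β (m² + 3)⌋ + c` are primes -/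
noncomputable def pairCount (b c : ℤ) (α β : ℝ) (N : ℕ) : ℕ :=
  #((Icc 1 N).filter fun m : ℕ => (⌊α * ((m : ℝ) ^ 2 + 1)⌋ + b).toNat.Prime ∧ (⌊β * ((m : ℝ) ^ 2 + 3)⌋ + c).toNat.Prime)

lemma ratio {k : ℕ} (x : ℕ → ℝ) (d : Fin k → ℝ) (hd : ∀ i, 0 < d i)
    (h : Tendsto (fun N : ℕ => x N * (Real.log N) ^ k / N) atTop (𝓝 (∏ i, 1 / d i))) :
    Tendsto (fun N : ℕ => x N / (N / ∏ i, (d i * Real.log N))) atTop (𝓝 1) := by
  have hP : 0 < ∏ i, d i := Finset.prod_pos fun i _ => hd i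
  have h1 := h.mul_const (∏ i, d i)
  have e1 : (∏ i, 1 / d i) * ∏ i, d i = 1 := by
    rw [← Finset.prod_mul_distrib]
    refine Finset.prod_eq_one fun i _ => ?_
    rw [one_div, inv_mul_cancel₀ (hd i).ne']
  rw [e1] at h1
  refine h1.congr fun N => ?_
  rw [Finset.prod_mul_distrib, Finset.prod_const, Finset.card_univ, Fintype.card_fin, div_div_eq_mul_div]
  ring

/-- **Hypothesis H for almost all multiples of given polynomials, and for almost all real polynomials.** -/
theorem result :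
    (∀ (k : ℕ) (P : Fin k → ℝ[X]), (∀ i, 0 < (P i).natDegree) → (∀ i, 0 < (P i).leadingCoeff) →
      ∀ᵐ α : Fin k → ℝ, (∀ i, 0 < α i) → ∀ b : Fin k → ℤ,
        Tendsto (fun N : ℕ => (polyCount P b α N : ℝ) / (N / ∏ i, ((P i).natDegree * Real.log N))) atTop (𝓝 1) ∧
        ∀ K : ℕ, Tendsto (fun N : ℕ => |(polyCount P b α N : ℝ) - polyMain P α N| / (N / (Real.log N) ^ K))
          atTop (𝓝 0)) ∧
    (∀ (k : ℕ) (d : Fin k → ℕ), (∀ i, 0 < d i) →
      ∀ᵐ a : (i : Fin k) → Fin (d i + 1) → ℝ, (∀ i, 0 < a i (Fin.last (d i))) → ∀ b : Fin k → ℤ,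
        Tendsto (fun N : ℕ => (coeffCount d a b N : ℝ) / (N / ∏ i, (d i * Real.log N))) atTop (𝓝 1) ∧
        ∀ K : ℕ, Tendsto (fun N : ℕ => |(coeffCount d a b N : ℝ) - coeffMain d a N| / (N / (Real.log N) ^ K))
          atTop (𝓝 0)) ∧
    (∀ᵐ α : Fin 2 → ℝ, 0 < α 0 → 0 < α 1 → ∀ b c : ℤ,
        Tendsto (fun N : ℕ => (pairCount b c (α 0) (α 1) N : ℝ) / (N / (4 * (Real.log N) ^ 2))) atTop (𝓝 1)) := by
  have h1 : ∀ (k : ℕ) (P : Fin k → ℝ[X]), (∀ i, 0 < (P i).natDegree) → (∀ i, 0 < (P i).leadingCoeff) →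
      ∀ᵐ α : Fin k → ℝ, (∀ i, 0 < α i) → ∀ b : Fin k → ℤ,
        Tendsto (fun N : ℕ => (polyCount P b α N : ℝ) / (N / ∏ i, ((P i).natDegree * Real.log N))) atTop (𝓝 1) ∧
        ∀ K : ℕ, Tendsto (fun N : ℕ => |(polyCount P b α N : ℝ) - polyMain P α N| / (N / (Real.log N) ^ K))
          atTop (𝓝 0) := by
    intro k P hd hP
    filter_upwards [Pool.Agent.N798.S.main_poly P hP hd] with α hα hpos b
    obtain ⟨h2, h3⟩ := hα hpos b
    refine ⟨ratio (fun N => (polyCount P b α N : ℝ)) (fun i => ((P i).natDegree : ℝ))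
      (fun i => by exact_mod_cast hd i) h2, fun K => ?_⟩
    refine (h3 K).congr fun N => ?_
    rw [div_div_eq_mul_div]
    change _ * |(polyCount P b α N : ℝ) - polyMain P α N| = _
    ring
  refine ⟨h1, ?_, ?_⟩
  · intro k d hd
    filter_upwards [Pool.Agent.N798.S.main_all d hd] with a ha hpos b
    obtain ⟨h2, h3⟩ := ha hpos b
    refine ⟨ratio (fun N => (coeffCount d a b N : ℝ)) (fun i => (d i : ℝ)) (fun i => by exact_mod_cast hd i) h2,
      fun K => ?_⟩
    refine (h3 K).congr fun N => ?_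
    rw [div_div_eq_mul_div]
    change _ * |(coeffCount d a b N : ℝ) - coeffMain d a N| = _
    ring
  · have e1 : ∀ t : ℝ, (X ^ 2 + C t : ℝ[X]).natDegree = 2 := fun t => Polynomial.natDegree_X_pow_add_C
    have e2 : ∀ t : ℝ, (X ^ 2 + C t : ℝ[X]).leadingCoeff = 1 := fun t =>
      (Polynomial.monic_X_pow_add_C t two_ne_zero).leadingCoeff
    have h4 := h1 2 ![X ^ 2 + C 1, X ^ 2 + C 3]
      (by
        rw [Fin.forall_fin_two]
        exact ⟨(e1 1).symm ▸ two_pos, (e1 3).symm ▸ two_pos⟩)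
      (by
        rw [Fin.forall_fin_two]
        exact ⟨(e2 1).symm ▸ one_pos, (e2 3).symm ▸ one_pos⟩)
    filter_upwards [h4] with α hα h5 h6 b c
    obtain ⟨h7, -⟩ := hα (fun i => by fin_cases i; exacts [h5, h6]) ![b, c]
    refine h7.congr fun N => ?_
    congr 1
    · unfold polyCount pairCount
      congr 2
      refine Finset.filter_congr fun m _ => ?_
      rw [Fin.forall_fin_two]
      simp
    · rw [Fin.prod_univ_two]
      congr 1
      simp only [Matrix.cons_val_zero, Matrix.cons_val_one, e1]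
      push_cast
      ring

end Pool.Agent.Results.MP_2dba45_nt.MetricHypothesisH
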