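import Pool.Agent.N913.KU.U15

/-!
# Simultaneous prime values of quadratics, for almost all quadratics

The asymptotic formula of Bateman and Horn for 100 percent of the systems of values
`f_(α i)(τ_i(n))`, `i = 1, ..., k`, of quadratics `f_1, ..., f_r`, where each quadratic may occur
twice: for example both `f(n)` and `f(n + h)` are primes (twin prime values of almost all
quadratics), in the shortest possible windows (up to `ε` in the exponent).

Here `f_a = P_a + c_(a,0) + c_(a,1) X + c_(a,2) X^2`, `a = 1, ..., r`, `|c_(a,j)| ≤ H`; the `P_a` are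
arbitrary integer polynomials of degree at most `d` and height at most `H (log H)^A` (the case
`P_a = 0` is that of all quadratics of height `H`), the `τ_i` are arbitrary nonconstant integer
polynomials, and the windows are `J < n ≤ J + x`, `(log H)^(k + ε) ≤ x`, `J + x ≤ (log H)^C` (the
expected number of such `n` has the order of `x / (log H)^k`, so `k + ε` is best possible up to
`ε`). The Bateman-Horn product runs over the primes below `y`, for any `y` between `log log H` and
`(log H) / 2`.

Method: for two arguments `n`, `n'` a quadratic has four values `f(n), f(n + h), f(n'), f(n' + h)`,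
which are dependent linear forms in its three coefficients, so exact independence fails (it needs
four free coefficients). The four forms have Cauchy-Schwarz complexity one: one can move one value
and one group of the others by one vector of Newton's interpolation polynomials and the same value
and the other group by another. A bilinear estimate and Vinogradov's estimate for the exponential
sum of the primes minus their sieve model (with a power of `log H` saved, for every additive
character) replace the primes by the model, one position at a time; the mean of the product of the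
models is computed by a sieve in two variables (Brun's), along a family of shifts with pairwise
different slopes. The local factors of the pairs, which are not independent either, are bounded by
Bonferroni's inequality from the pairwise independence of the values modulo `p`.
-/

set_option autoImplicit false

namespace Pool.Agent.Results.MP_2dba45_nt.TwinValuesOfQuadratics

open Finset Polynomial

/-- the polynomials `f_a = P_a + c_(a,0) + c_(a,1) X + c_(a,2) X^2` -/
noncomputable def fam {r : ℕ} (P : Fin r → ℤ[X]) (c : Fin r × Fin 3 → ℤ) (a : Fin r) : ℤ[X] :=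
  P a + (C (c (a, 0)) + C (c (a, 1)) * X + C (c (a, 2)) * X ^ 2)

/-- the number of the `n` with `J < n ≤ J + x` such that all numbers `|f_(α i)(τ_i(n))|` are
primes -/
noncomputable def primeSystems {r k : ℕ} (α : Fin k → Fin r) (τ : Fin k → ℤ[X]) (f : Fin r → ℤ[X])
    (J x : ℕ) : ℕ :=
  #((Ioc J (J + x)).filter (fun n : ℕ => ∀ i, ((f (α i)).eval ((τ i).eval (n : ℤ))).natAbs.Prime))

/-- the number of residues `n` modulo `p` such that `p` divides the product of the
`f_(α i)(τ_i(n))` -/
noncomputable def omega {r k : ℕ} (α : Fin k → Fin r) (τ : Fin k → ℤ[X]) (f : Fin r → ℤ[X])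
    (p : ℕ) : ℕ :=
  #((range p).filter (fun n : ℕ => (p : ℤ) ∣ ∏ i, (f (α i)).eval ((τ i).eval (n : ℤ))))

/-- the Bateman-Horn product of the system over the primes `p < y` -/
noncomputable def bhProduct {r k : ℕ} (α : Fin k → Fin r) (τ : Fin k → ℤ[X]) (f : Fin r → ℤ[X])
    (y : ℕ) : ℝ :=
  ∏ p ∈ (range y).filter Nat.Prime, (1 - (omega α τ f p : ℝ) / p) / (1 - 1 / (p : ℝ)) ^ k

theorem fam_eq {r : ℕ} (P : Fin r → ℤ[X]) (c : Fin r × Fin 3 → ℤ) :
    fam P c = Pool.Agent.N913.KS.pf P c := by
  funext a
  unfold fam Pool.Agent.N913.KS.pf Pool.Agent.N913.KT.pol Pool.Agent.N913.KS.blk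
  rw [Fin.sum_univ_three]
  simp

/-- **Simultaneous prime values of almost all quadratics, in tiny windows.** Let `k ≥ 1`, let
`τ_1, ..., τ_k` be nonconstant integer polynomials and `α_i ∈ {1, ..., r}` such that the pairs
`(α_i, τ_i)` are distinct and at most two of the `α_i` are equal to any given `a`. For all `d`, `A`,
`C` and `ε > 0`, all `H ≥ H₀`, all integer polynomials `P_1, ..., P_r` of degree at most `d` with
coefficients at most `H (log H)^A` in absolute value, all `x ≥ (log H)^(k + ε)`, all `y` with
`log log H ≤ y ≤ (log H) / 2` and every finite set `W` of integers `J ≥ 0` with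
`J + x ≤ (log H)^C`, all but at most `ε H^(3 r)` of the integer vectors `(c_(a,j))`,
`|c_(a,j)| ≤ H`, have the following property for `f_a = P_a + c_(a,0) + c_(a,1) X + c_(a,2) X^2`:
for all but at most `ε #W` of the `J ∈ W`, the number of the `n`, `J < n ≤ J + x`, such that all
`|f_(α_i)(τ_i(n))|`, `i = 1, ..., k`, are primes is `(1 + θ) 𝔖 x / (log H)^k`, `|θ| ≤ ε`, where `𝔖`
is the Bateman-Horn product of the system over the primes below `y`. -/
theorem result (r k : ℕ) (hk : 1 ≤ k) (α : Fin k → Fin r) (τ : Fin k → ℤ[X])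
    (hτ : ∀ i, 1 ≤ (τ i).natDegree) (hdist : ∀ i j, α i = α j → τ i = τ j → i = j)
    (htwo : ∀ a, #(univ.filter (fun i => α i = a)) ≤ 2) (d A C : ℕ) (ε : ℝ) (hε : 0 < ε) :
    ∃ H₀ : ℕ, ∀ H : ℕ, H₀ ≤ H → ∀ P : Fin r → ℤ[X], (∀ a, (P a).natDegree ≤ d) →
      (∀ a i, |((P a).coeff i : ℝ)| ≤ H * Real.log H ^ A) →
      ∀ x y : ℕ, Real.log H ^ ((k : ℝ) + ε) ≤ x → Real.log (Real.log H) ≤ y →
      (y : ℝ) ≤ Real.log H / 2 →
      ∀ W : Finset ℕ, (∀ J ∈ W, ((J + x : ℕ) : ℝ) ≤ Real.log H ^ C) →
      ∃ Bad : Finset (Fin r × Fin 3 → ℤ), (#Bad : ℝ) ≤ ε * H ^ (3 * r) ∧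
        ∀ c : Fin r × Fin 3 → ℤ, (∀ s, |c s| ≤ H) → c ∉ Bad →
          ∃ G ⊆ W, (1 - ε) * #W ≤ #G ∧ ∀ J ∈ G,
            |(primeSystems α τ (fam P c) J x : ℝ) -
                bhProduct α τ (fam P c) y * x / Real.log H ^ k| ≤
              ε * (bhProduct α τ (fam P c) y * x / Real.log H ^ k) := by
  have hinj : Function.Injective (fun i => (α i, τ i)) := by
    intro i j h
    exact hdist i j (congrArg Prod.fst h) (congrArg Prod.snd h)
  obtain ⟨H₀, h⟩ := Pool.Agent.N913.KS.windowsV r k 3 hk α τ hτ hinj
    (fun a => by have := htwo a; omega) d A C ε hε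
  refine ⟨H₀, fun H hH P hPd hP x y hx hy1 hy2 W hW => ?_⟩
  obtain ⟨Bad, h1, h2⟩ := h H hH P hPd hP x y hx hy1 hy2 W hW
  rw [mul_comm r 3] at h1
  refine ⟨Bad, h1, fun c hc hcB => ?_⟩
  obtain ⟨G, g1, g2, g3⟩ := h2 c hc hcB
  refine ⟨G, g1, g2, fun J hJ => ?_⟩
  rw [fam_eq]
  have e1 : primeSystems α τ (Pool.Agent.N913.KS.pf P c) J x =
      Pool.Agent.N913.KS.QQ α τ (Pool.Agent.N913.KS.pf P c) J x := rfl
  have e2 : bhProduct α τ (Pool.Agent.N913.KS.pf P c) y =
      Pool.Agent.N913.KT.SS k (Pool.Agent.N913.KS.FP α τ (Pool.Agent.N913.KS.pf P c)) y := by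
    unfold bhProduct Pool.Agent.N913.KT.SS
    apply prod_congr rfl
    intro p _
    have e3 : omega α τ (Pool.Agent.N913.KS.pf P c) p =
        Pool.Agent.N913.KT.om (Pool.Agent.N913.KS.FP α τ (Pool.Agent.N913.KS.pf P c)) p := by
      unfold omega Pool.Agent.N913.KT.om
      congr 1
      apply filter_congr
      intro n _
      rw [Pool.Agent.N913.KS.FP_eval]
    rw [e3]
  rw [e1, e2]
  exact g3 J hJ

end Pool.Agent.Results.MP_2dba45_nt.TwinValuesOfQuadratics
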